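import Mathlib

/-!
Shared definitions for the disproof of MP_9d6b4a_an (frozen statement S05554).
The circle is `UnitAddCircle`, with its norm (distance to `0`, at most `1/2`).
-/

set_option autoImplicit false

namespace Pool.Agent.PolyRec

open MeasureTheory

/-- The circle. -/
abbrev Tor : Type := UnitAddCircle

/-- The value vector whose dyadic multiples are the forms: the variables themselves and the
checks `b ↦ ∑ i, t (π_i⁻¹ b)`. -/
noncomputable def combo {K N : ℕ} (π : Fin K → Equiv.Perm (Fin N)) (t : Fin N → Tor) :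
    Fin N ⊕ Fin N → Tor :=
  Sum.elim t (fun b => ∑ i, t ((π i).symm b))

/-- The expansion property of a family of permutations, for sets of density at most `α`. -/
def Expands {N : ℕ} (D : ℕ) (α : ℝ) (π : Fin (8 * D) → Equiv.Perm (Fin N)) : Prop :=
  ∀ B : Finset (Fin N), (B.card : ℝ) ≤ α * N →
    7 * D * B.card ≤ (Finset.univ.biUnion fun i => B.image (π i)).card

open Classical in
/-- The number of indices satisfying a predicate, as a real number. -/
noncomputable def cnt {ι : Type} [Fintype ι] (p : ι → Prop) : ℝ :=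
  ((Finset.univ.filter p).card : ℝ)

/-- The set of good vectors `V`. -/
def InV {ι : Type} [Fintype ι] (lam A' : ℝ) (y : ι → Tor) : Prop :=
  |cnt (fun j => ‖y j‖ ≤ 1 / 16) - 2 * (1 / 16) * Fintype.card ι| ≤ lam * Fintype.card ι ∧
  |cnt (fun j => ‖y j‖ ≤ 1 / 16 + A') - 2 * (1 / 16 + A') * Fintype.card ι| ≤
    lam * Fintype.card ι

/-- The set `J(y)` of indices whose coordinate is in the arc `I`. -/
def Jset {ι : Type} (y : ι → Tor) : Set ι := {j | ‖y j‖ ≤ 1 / 16}

/-- Coordinates of one level: inputs and outputs. -/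
abbrev Ix (S o' o : ℕ) : Type := (Fin S × Fin o') ⊕ Fin o

/-- The numerical parameters. -/
structure Par where
  S : ℕ
  D : ℕ
  L : ℕ
  J : ℕ
  α : ℝ
  e : ℝ
  lam : ℝ
  A' : ℝ
  A : ℝ
  hD : 2 ≤ D
  hα0 : 0 < α
  he0 : 0 < e
  he1 : e ≤ 1 / 4
  hlam0 : 0 < lam
  hA0 : 0 < A
  hA1 : A ≤ 1 / 8
  hα : α * (2 ^ 30 * (D : ℝ) ^ 2) ≤ 1
  hroom : 2 * (2 * (L : ℝ) + 3) ≤ (1 / 8 - lam) * ((S : ℝ) + 2)
  hforms : 2 * (2 * L + 2) ≤ S
  hbad : 5 * e * ((S : ℝ) + 2) ≤ 2 * α
  hsmall : 2 * A' + 4 * lam ≤ e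
  hA' : (4 * (S : ℝ) + 2) * A ≤ A'
  hA'16 : A' < 1 / 16
  htier : (64 * (D : ℝ)) ^ J ≤ 4 * 2 ^ L * A
  hfin : α * (1 / 4 ^ J + 1 / (6 * (D : ℝ))) ≤ e

/-- Number of outputs of level `k`. -/
def o (O : ℕ) : ℕ → ℕ
  | 0 => O
  | k + 1 => 2 * o O k

/-- Number of inputs of each type of level `k`. -/
def o' (O : ℕ) : ℕ → ℕ
  | 0 => 0
  | k + 1 => o O k

/-- The space of the `y`'s. -/
abbrev Y (S O : ℕ) : Type := ∀ k : ℕ, Ix S (o' O k) (o O k) → Tor

/-- The space of the `γ`'s. -/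
abbrev G (S O : ℕ) : Type := ∀ k : ℕ, Fin (S + 1) × Fin (o O k) → Tor

/-- inputs -/
def gin {S O : ℕ} (g : G S O) : ∀ k : ℕ, Fin (S + 1) → Fin (o' O k) → Tor
  | 0 => fun _ a => Fin.elim0 a
  | k + 1 => fun q a => g k (q, a)

/-- Haar probability measures on the two factors. -/
noncomputable def μY (S O : ℕ) : Measure (Y S O) := Measure.addHaarMeasure ⊤

noncomputable def μG (S O : ℕ) : Measure (G S O) := Measure.addHaarMeasure ⊤

instance instProbY (S O : ℕ) : IsProbabilityMeasure (μY S O) :=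
  ⟨by unfold μY; simpa using Measure.addHaarMeasure_self (K₀ := (⊤ : TopologicalSpace.PositiveCompacts (Y S O)))⟩

instance instProbG (S O : ℕ) : IsProbabilityMeasure (μG S O) :=
  ⟨by unfold μG; simpa using Measure.addHaarMeasure_self (K₀ := (⊤ : TopologicalSpace.PositiveCompacts (G S O)))⟩

instance instHaarY (S O : ℕ) : (μY S O).IsAddHaarMeasure := by
  unfold μY; infer_instance

instance instHaarG (S O : ℕ) : (μG S O).IsAddHaarMeasure := by
  unfold μG; infer_instance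

/-- The set of good `y`. -/
def Good (P : Par) (O : ℕ) (z : Ix P.S (o' O 0) (o O 0) → Tor) (y : Y P.S O) : Prop :=
  dist (y 0) z < P.A / 2 ∧ ∀ k, InV P.lam P.A' (y (k + 1))

/-- The pair containing `i`. -/
def pr {S : ℕ} (i : Fin (2 * (S + 1))) : Fin (S + 1) := ⟨(i : ℕ) / 2, by omega⟩

end Pool.Agent.PolyRec
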