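import Pool.Agent.Lib.MP_9d6b4a_an.Mg.G001
import Pool.Agent.Lib.MP_9d6b4a_an.Mg.G002

set_option autoImplicit false

namespace Pool.Agent.PolyRec

open MeasureTheory

set_option exponentiation.threshold 600 in
theorem exists_par : Nonempty Par :=
  ⟨{ S := 2 ^ 15, D := 2 ^ 16, L := 511, J := 10, α := 1 / 2 ^ 64, e := 1 / 2 ^ 81,
     lam := 1 / 2 ^ 84, A' := 1 / 2 ^ 84, A := 1 / 2 ^ 102
     hD := by norm_num
     hα0 := by norm_num
     he0 := by norm_num
     he1 := by norm_num
     hlam0 := by norm_num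
     hA0 := by norm_num
     hA1 := by norm_num
     hα := by norm_num
     hroom := by norm_num
     hforms := by norm_num
     hbad := by norm_num
     hsmall := by norm_num
     hA' := by norm_num
     hA'16 := by norm_num
     htier := by norm_num
     hfin := by norm_num }⟩

theorem final (P : Par) :
    ¬ (∀ (α : Type) [MeasurableSpace α] (μ : MeasureTheory.Measure α)
      [MeasureTheory.IsProbabilityMeasure μ]
      (ℓ : ℕ) (T : Fin ℓ → Equiv.Perm α) (p : Fin ℓ → Polynomial ℤ),
      (∀ i, Measurable (T i)) →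
      (∀ i, Measurable (T i).symm) →
      (∀ i, MeasureTheory.MeasurePreserving (T i) μ μ) →
      Function.Injective p →
      (∀ i, (p i).coeff 0 = 0) →
      ∀ A : Set α, MeasurableSet A → 0 < μ A →
        ∃ m n : ℕ, 0 < m ∧ 0 < n ∧
          0 < μ (A ∩ ⋂ i, ⇑(T i ^ ((m : ℤ) + (p i).eval (n : ℤ))) ⁻¹' A)) := by
  intro H
  obtain ⟨O, hO, z, hz⟩ := exists_Good_pos P
  choose F hF hF' hF1 hF2 using fun p : Fin (P.S + 1) => exists_gather P.S O p
  choose Φ hΦc hΦm hΦm' hΦ using fun p : Fin (P.S + 1) =>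
    exists_Phi P.S O (Elev P O) (Elev_cont P O) (Elev_cont_symm P O) (F p) (hF p) (hF' p)
  choose T hT hT' hTm hTκ using fun p : Fin (P.S + 1) =>
    exists_skew (μY P.S O) (μG P.S O) (Φ p) (hΦc p) (hΦm p) (hΦm' p)
  obtain ⟨m, n, hm, hn, hpos⟩ := H (Y P.S O × G P.S O) ((μY P.S O).prod (μG P.S O))
    (2 * (P.S + 1)) (fun i => T (pr i)) (fun i => Polynomial.C (i : ℤ) * Polynomial.X)
    (fun i => hT _) (fun i => hT' _) (fun i => hTm _)
    (by
      intro i j hij
      have h := congrArg (fun q => Polynomial.coeff q 1) hij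
      simp only [Polynomial.coeff_C_mul, Polynomial.coeff_X_one, mul_one] at h
      exact Fin.ext (by exact_mod_cast h))
    (by intro i; simp)
    ({y | Good P O z y} ×ˢ Set.univ) ((measurableSet_Good P O z).prod MeasurableSet.univ)
    (by
      rw [Measure.prod_prod, measure_univ, mul_one]
      exact hz)
  refine absurd hpos (not_lt.2 (le_of_eq ?_))
  refine measure_mono_null (t := Set.univ ×ˢ {g | ∀ k, cnt (fun a : Fin (o O k) =>
    P.A < ‖(m : ℤ) • g k (pr (⟨0, by omega⟩ : Fin (2 * (P.S + 1))), a)‖) ≤ P.e * o O k}) ?_ ?_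
  · rintro ⟨y, g⟩ ⟨hA, hI⟩
    refine ⟨Set.mem_univ _, ?_⟩
    rw [Set.mem_iInter] at hI
    intro k
    have key := induction P O z F hF1 hF2 (m : ℤ) (n : ℤ) y g hA.1 ?_ k ⟨0, by omega⟩
    · simpa using key
    · intro i
      have h := (hI i).1
      simp only [Set.mem_ofPred_eq, hTκ] at h
      have h2 : Φ (pr i) y g = fun k => Elev P O k (Jset (y k)) (F (pr i) g k) := by
        funext k
        exact hΦ _ _ _ _
      rw [h2] at h
      simpa using h
  · rw [Measure.prod_prod, null P O hO (m : ℤ) (by omega) _, mul_zero]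

end Pool.Agent.PolyRec
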