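import Pool.Agent.Lib.MP_9d6b4a_an.T06

set_option autoImplicit false

namespace Pool.Agent.PolyRec

open MeasureTheory

/-- The level automorphisms. -/
noncomputable def Elev (P : Par) (O : ℕ) : ∀ k, Set (Ix P.S (o' O k) (o O k)) →
      ((Ix P.S (o' O k) (o O k) → Tor) ≃+ (Ix P.S (o' O k) (o O k) → Tor))
  | 0 => fun _ => AddEquiv.refl _
  | k + 1 => (exists_level P (o O k)).choose

theorem Elev_cont (P : Par) (O k : ℕ) (Q) : Continuous (Elev P O k Q) := by
  cases k with
  | zero => exact continuous_id
  | succ k => exact (exists_level P (o O k)).choose_spec.1 Q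

theorem Elev_cont_symm (P : Par) (O k : ℕ) (Q) : Continuous (Elev P O k Q).symm := by
  cases k with
  | zero => exact continuous_id
  | succ k => exact (exists_level P (o O k)).choose_spec.2.1 Q

end Pool.Agent.PolyRec
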