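import Pool.Agent.Lib.MP_9d6b4a_an.Mg.G003

/-!
Recurrence for two arbitrary invertible measure preserving transformations along shifted
polynomials.
-/

set_option autoImplicit false

noncomputable section

namespace Pool.Agent.Lib.ShiftRec

open Filter Topology Finset MeasureTheory Polynomial
open scoped InnerProductSpace

variable {α : Type*} [MeasurableSpace α] {μ : Measure α}

/-- An invertible measure preserving transformation. -/
structure IsAut (μ : Measure α) (T : Equiv.Perm α) : Prop where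
  meas : Measurable T
  meas_symm : Measurable T.symm
  mp : MeasurePreserving T μ μ

lemma IsAut.mp_symm {T : Equiv.Perm α} (hT : IsAut μ T) : MeasurePreserving T.symm μ μ := by
  let e : α ≃ᵐ α := ⟨T, hT.meas, hT.meas_symm⟩
  have he : MeasurePreserving e μ μ := hT.mp
  exact he.symm e

lemma IsAut.mp_pow {T : Equiv.Perm α} (hT : IsAut μ T) (n : ℕ) :
    MeasurePreserving ⇑(T ^ n) μ μ := by
  rw [← Equiv.Perm.iterate_eq_pow]
  exact hT.mp.iterate n

lemma IsAut.inv {T : Equiv.Perm α} (hT : IsAut μ T) : IsAut μ T⁻¹ where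
  meas := hT.meas_symm
  meas_symm := hT.meas
  mp := hT.mp_symm

lemma IsAut.mp_zpow {T : Equiv.Perm α} (hT : IsAut μ T) (k : ℤ) :
    MeasurePreserving ⇑(T ^ k) μ μ := by
  obtain ⟨n, rfl | rfl⟩ := k.eq_nat_or_neg
  · rw [zpow_natCast]
    exact hT.mp_pow n
  · rw [zpow_neg, zpow_natCast, ← inv_pow]
    exact hT.inv.mp_pow n

variable [IsProbabilityMeasure μ]

/-- The Koopman representation. -/
def rep {T : Equiv.Perm α} (hT : IsAut μ T) (k : ℤ) : Lp ℝ 2 μ →ₗᵢ[ℝ] Lp ℝ 2 μ :=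
  koopman ⇑(T ^ k) (hT.mp_zpow k)

lemma rep_coe {T : Equiv.Perm α} (hT : IsAut μ T) (k : ℤ) (g : Lp ℝ 2 μ) :
    rep hT k g =ᵐ[μ] g ∘ ⇑(T ^ k) := koopman_coe _ g

lemma isRep_rep {T : Equiv.Perm α} (hT : IsAut μ T) : IsRep (rep hT) where
  zero := by
    intro x
    apply Lp.ext
    filter_upwards [rep_coe hT 0 x] with a ha
    rw [ha]
    simp
  add := by
    intro k l x
    apply Lp.ext
    have h1 := rep_coe hT (k + l) x
    have h2 := rep_coe hT k (rep hT l x)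
    have h3 := (hT.mp_zpow k).quasiMeasurePreserving.ae_eq_comp (rep_coe hT l x)
    filter_upwards [h1, h2, h3] with a h1 h2 h3
    rw [h1, h2]
    simp only [Function.comp_apply] at h3 ⊢
    rw [h3, add_comm, zpow_add, Equiv.Perm.mul_apply]

lemma rep_ind {T : Equiv.Perm α} (hT : IsAut μ T) (k : ℤ) {A : Set α} (hA : MeasurableSet A) :
    rep hT k (ind μ hA) = ind μ (hA.preimage (hT.mp_zpow k).measurable) := rfl

lemma inner_ind {A B : Set α} (hA : MeasurableSet A) (hB : MeasurableSet B) :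
    ⟪ind μ hA, ind μ hB⟫_ℝ = μ.real (A ∩ B) :=
  L2.real_inner_indicatorConstLp_one_indicatorConstLp_one hA hB _ _

lemma inner_ind_left {A : Set α} (hA : MeasurableSet A) (g : Lp ℝ 2 μ) :
    ⟪ind μ hA, g⟫_ℝ = ∫ x in A, g x ∂μ :=
  L2.inner_indicatorConstLp_one (𝕜 := ℝ) hA _ g

lemma norm_ind_le {A : Set α} (hA : MeasurableSet A) : ‖ind μ hA‖ ≤ 1 := by
  rw [ind, norm_indicatorConstLp (by norm_num) (by norm_num)]
  simp only [norm_one, one_mul]
  apply Real.rpow_le_one measureReal_nonneg measureReal_le_one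
  norm_num

lemma IsRep.fixed_mul {H : Type*} [NormedAddCommGroup H] [InnerProductSpace ℝ H]
    {U : ℤ → H →ₗᵢ[ℝ] H} (hU : IsRep U) {k : ℤ} {g : H} (hg : U k g = g) (t : ℤ) :
    U (k * t) g = g := by
  have h1 : ∀ n : ℕ, U (k * n) g = g := by
    intro n
    rw [← hU.iterate]
    exact Function.iterate_fixed hg n
  obtain ⟨n, rfl | rfl⟩ := t.eq_nat_or_neg
  · exact h1 n
  · have h2 : U (k * -(n : ℤ)) (U (k * n) g) = g := by
      rw [← hU.add]
      have : k * -(n : ℤ) + k * n = 0 := by ring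
      rw [this, hU.zero]
    rw [h1 n] at h2
    exact h2

lemma IsRep.fixed_dvd {H : Type*} [NormedAddCommGroup H] [InnerProductSpace ℝ H]
    {U : ℤ → H →ₗᵢ[ℝ] H} (hU : IsRep U) {k l : ℤ} {g : H} (hg : U k g = g) (h : k ∣ l) :
    U l g = g := by
  obtain ⟨t, rfl⟩ := h
  exact hU.fixed_mul hg t

/-- Decomposition of a vector: fixed by a power, small, orthogonal to the rational part. -/
lemma decomposition {H : Type*} [NormedAddCommGroup H] [InnerProductSpace ℝ H] [CompleteSpace H]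
    {U : ℤ → H →ₗᵢ[ℝ] H} (hU : IsRep U) (f : H) {ε : ℝ} (hε : 0 < ε) :
    ∃ (k : ℕ) (w : H), 0 < k ∧ OrthRat U w ∧ ‖f - fixP (U k) f - w‖ < ε := by
  let F : ℕ → Submodule ℝ H := fun j => fixSp (U ((j.factorial : ℕ) : ℤ))
  have hmono : Monotone F := by
    intro i j hij g hg
    rw [mem_fixSp] at hg ⊢
    exact hU.fixed_dvd hg (by exact_mod_cast Nat.factorial_dvd_factorial hij)
  have hlim := Submodule.starProjection_tendsto_closure_iSup F hmono f
  obtain ⟨j, hj⟩ := (Metric.tendsto_atTop.mp hlim ε hε)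
  have hj' := hj j le_rfl
  refine ⟨j.factorial, f - (⨆ i, F i).topologicalClosure.starProjection f, Nat.factorial_pos j,
    ?_, ?_⟩
  · intro k hk g hg
    have h1 : U ((k.natAbs : ℕ) : ℤ) g = g := hU.fixed_dvd hg (by
      rw [Int.dvd_natCast])
    have h2 : g ∈ F k.natAbs := by
      rw [mem_fixSp]
      refine hU.fixed_dvd h1 ?_
      exact_mod_cast Nat.dvd_factorial (Int.natAbs_pos.mpr hk) le_rfl
    have h3 : g ∈ (⨆ i, F i).topologicalClosure :=
      (⨆ i, F i).le_topologicalClosure (Submodule.mem_iSup_of_mem _ h2)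
    exact (⨆ i, F i).topologicalClosure.starProjection_inner_eq_zero f g h3
  · rw [dist_eq_norm] at hj'
    have e : f - fixP (U ((j.factorial : ℕ) : ℤ)) f
        - (f - (⨆ i, F i).topologicalClosure.starProjection f)
        = -((F j).starProjection f - (⨆ i, F i).topologicalClosure.starProjection f) := by
      unfold fixP
      abel
    rw [e, norm_neg]
    exact hj'

lemma exists_avg_ge {N : ℕ} (hN : 0 < N) (v : ℕ → ℝ) {c : ℝ}
    (h : c ≤ (N : ℝ)⁻¹ * ∑ n ∈ range N, v n) : ∃ n ∈ range N, c ≤ v n := by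
  by_contra hcon
  push Not at hcon
  have h1 : ∑ n ∈ range N, v n < ∑ n ∈ range N, c :=
    Finset.sum_lt_sum_of_nonempty (Finset.nonempty_range_iff.mpr hN.ne') hcon
  rw [Finset.sum_const, card_range, nsmul_eq_mul] at h1
  have hN' : (0 : ℝ) < N := by exact_mod_cast hN
  have h2 : (N : ℝ)⁻¹ * ∑ n ∈ range N, v n < (N : ℝ)⁻¹ * (N * c) := by gcongr
  have h3 : (N : ℝ)⁻¹ * (N * c) = c := by field_simp
  linarith

/-- **Large intersections for two arbitrary transformations.** -/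
theorem two_recurrence {T S : Equiv.Perm α} (hT : IsAut μ T) (hS : IsAut μ S) {p q : ℤ[X]}
    (hpq : p ≠ q) (hp : p.coeff 0 = 0) (hq : q.coeff 0 = 0) {A : Set α} (hA : MeasurableSet A)
    {ε : ℝ} (hε : 0 < ε) :
    ∃ m n : ℕ, 0 < m ∧ 0 < n ∧ μ.real A ^ 3 - ε ≤
      μ.real (A ∩ ⇑(T ^ ((m : ℤ) + p.eval (n : ℤ))) ⁻¹' A
        ∩ ⇑(S ^ ((m : ℤ) + q.eval (n : ℤ))) ⁻¹' A) := by
  set f := ind μ hA with hf
  have hUS := isRep_rep hS
  have hUT := isRep_rep hT
  obtain ⟨k, w, hk, hw, hsmall⟩ := decomposition hUS f (ε := ε / 3) (by positivity)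
  set g := fixP (rep hS k) f with hg
  have hgfix : rep hS k g = g := fixP_fixed _ _
  -- the polynomial
  set r := q - p with hr
  have hr0 : r.coeff 0 = 0 := by rw [hr, coeff_sub, hp, hq, sub_zero]
  have hrne : r ≠ 0 := sub_ne_zero.mpr (Ne.symm hpq)
  obtain ⟨d, hd⟩ : ∃ d, r.natDegree = d + 1 := by
    refine ⟨r.natDegree - 1, ?_⟩
    have : r.natDegree ≠ 0 := by
      intro h
      apply hrne
      rw [Polynomial.eq_C_of_natDegree_eq_zero h, hr0, map_zero]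
    omega
  have hkz : (k : ℤ) ≠ 0 := by exact_mod_cast hk.ne'
  have hseq : IsPolySeq d (fun n : ℕ => r.eval ((k * (n + 1) : ℕ) : ℤ)) := by
    have h1 : (r.comp (C (k : ℤ) * X + C (k : ℤ))).natDegree = d + 1 := by
      rw [natDegree_comp, hd, natDegree_linear hkz, mul_one]
    have h2 := isPolySeq_of_natDegree d _ h1
    have e : (fun n : ℕ => (r.comp (C (k : ℤ) * X + C (k : ℤ))).eval (n : ℤ))
        = fun n : ℕ => r.eval ((k * (n + 1) : ℕ) : ℤ) := by
      funext n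
      rw [eval_comp]
      congr 1
      simp
      ring
    rwa [e] at h2
  have hdvd : ∀ n : ℕ, (k : ℤ) ∣ r.eval ((k * (n + 1) : ℕ) : ℤ) := by
    intro n
    have h1 := Polynomial.sub_dvd_eval_sub (((k * (n + 1) : ℕ) : ℤ)) 0 r
    rw [sub_zero, ← Polynomial.coeff_zero_eq_eval_zero, hr0, sub_zero] at h1
    refine dvd_trans ?_ h1
    push_cast
    exact dvd_mul_right _ _
  -- choose `N`
  have herg := poly_ergodic hUS hw d _ hseq
  obtain ⟨N₀, hN₀⟩ := Metric.tendsto_atTop.mp herg (ε / 3) (by positivity)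
  set N := N₀ + 1 with hN
  have hNpos : 0 < N := Nat.succ_pos _
  have hNsmall := hN₀ N (Nat.le_succ _)
  rw [dist_zero_right] at hNsmall
  -- the function `1_A g`
  have hmem : MemLp (A.indicator g) 2 μ := (Lp.memLp g).indicator hA
  set F : Lp ℝ 2 μ := hmem.toLp _ with hF
  have hFcoe : F =ᵐ[μ] A.indicator g := hmem.coeFn_toLp
  have hinnerF : ∀ {B : Set α} (hB : MeasurableSet B),
      ⟪ind μ hB, F⟫_ℝ = ⟪ind μ (hA.inter hB), g⟫_ℝ := by
    intro B hB
    rw [inner_ind_left, inner_ind_left, setIntegral_congr_ae (g := A.indicator g) hB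
      (hFcoe.mono fun x hx _ => hx), setIntegral_indicator hA, Set.inter_comm]
  -- choose `a`
  obtain ⟨a₀, ha₀⟩ : ∃ a₀ : ℕ, ∀ n ∈ range N, p.eval ((k * (n + 1) : ℕ) : ℤ) < a₀ := by
    refine ⟨∑ n ∈ range N, (p.eval ((k * (n + 1) : ℕ) : ℤ)).natAbs + 1, fun n hn => ?_⟩
    have h1 : (p.eval ((k * (n + 1) : ℕ) : ℤ)).natAbs
        ≤ ∑ n ∈ range N, (p.eval ((k * (n + 1) : ℕ) : ℤ)).natAbs :=
      Finset.single_le_sum (f := fun n => (p.eval ((k * (n + 1) : ℕ) : ℤ)).natAbs)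
        (fun _ _ => Nat.zero_le _) hn
    have h2 : p.eval ((k * (n + 1) : ℕ) : ℤ) ≤ (p.eval ((k * (n + 1) : ℕ) : ℤ)).natAbs :=
      Int.le_natAbs
    have h3 : (((p.eval ((k * (n + 1) : ℕ) : ℤ)).natAbs : ℕ) : ℤ)
        ≤ ((∑ n ∈ range N, (p.eval ((k * (n + 1) : ℕ) : ℤ)).natAbs : ℕ) : ℤ) := by
      exact_mod_cast h1
    push_cast at h2 h3 ⊢
    linarith
  obtain ⟨i, hi⟩ : ∃ i : ℕ, μ.real A ^ 3 - ε / 3
      ≤ ⟪rep hT ((k * (a₀ + i) : ℕ) : ℤ) f, F⟫_ℝ := by
    have h1 := mean_ergodic (rep hT k) f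
    have h2 := (((rep hT ((k * a₀ : ℕ) : ℤ)).continuous.tendsto _).comp h1).inner (𝕜 := ℝ)
      (tendsto_const_nhds (x := F))
    have hfixT : rep hT ((k * a₀ : ℕ) : ℤ) (fixP (rep hT k) f) = fixP (rep hT k) f := by
      refine hUT.fixed_dvd (fixP_fixed _ _) ?_
      push_cast
      exact dvd_mul_right _ _
    rw [hfixT] at h2
    have h3 : μ.real A ^ 3 ≤ ⟪fixP (rep hT k) f, F⟫_ℝ := by
      have h4 := chu hA (hT.mp_zpow k) (hS.mp_zpow k)
      refine h4.trans (le_of_eq ?_)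
      rw [L2.inner_def, ← integral_indicator hA]
      refine integral_congr_ae (hFcoe.mono fun x hx => ?_)
      simp only [hx]
      by_cases hxA : x ∈ A
      · simp only [Set.indicator_of_mem hxA, RCLike.inner_apply, conj_trivial]
        rw [mul_comm]
        rfl
      · simp only [Set.indicator_of_notMem hxA, RCLike.inner_apply, zero_mul]
    have h5 : ∀ᶠ M : ℕ in atTop, μ.real A ^ 3 - ε / 3 < ⟪(⇑(rep hT ((k * a₀ : ℕ) : ℤ)) ∘
        fun N : ℕ => (N : ℝ)⁻¹ • ∑ n ∈ range N, (⇑(rep hT k))^[n] f) M, F⟫_ℝ :=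
      h2.eventually_const_lt (by linarith)
    obtain ⟨M, hM, hM1⟩ := (h5.and (eventually_ge_atTop 1)).exists
    have h6 : ⟪(⇑(rep hT ((k * a₀ : ℕ) : ℤ)) ∘
        fun N : ℕ => (N : ℝ)⁻¹ • ∑ n ∈ range N, (⇑(rep hT k))^[n] f) M, F⟫_ℝ
        = (M : ℝ)⁻¹ * ∑ n ∈ range M, ⟪rep hT ((k * (a₀ + n) : ℕ) : ℤ) f, F⟫_ℝ := by
      simp only [Function.comp_apply, map_smul, map_sum]
      rw [inner_smul_left, sum_inner]
      simp only [conj_trivial]
      congr 1
      refine Finset.sum_congr rfl fun n _ => ?_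
      rw [hUT.iterate, ← hUT.add]
      congr 3
      push_cast
      ring
    rw [h6] at hM
    obtain ⟨i, -, hi⟩ := exists_avg_ge (by omega) _ hM.le
    exact ⟨i, hi⟩
  set a : ℕ := k * (a₀ + i) with ha
  set B : Set α := A ∩ ⇑(T ^ (a : ℤ)) ⁻¹' A with hB
  have hTA : MeasurableSet (⇑(T ^ (a : ℤ)) ⁻¹' A) := hA.preimage (hT.mp_zpow a).measurable
  have hBm : MeasurableSet B := hA.inter hTA
  have hmain : μ.real A ^ 3 - ε / 3 ≤ ⟪ind μ hBm, g⟫_ℝ := by
    rw [rep_ind hT, hinnerF] at hi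
    exact hi
  -- average over `n`
  have havg : μ.real A ^ 3 - ε ≤ (N : ℝ)⁻¹ * ∑ n ∈ range N,
      ⟪ind μ hBm, rep hS (a + r.eval ((k * (n + 1) : ℕ) : ℤ)) f⟫_ℝ := by
    have hterm : ∀ n, ⟪ind μ hBm, rep hS (a + r.eval ((k * (n + 1) : ℕ) : ℤ)) f⟫_ℝ
        = ⟪ind μ hBm, g⟫_ℝ
          + ⟪ind μ hBm, rep hS (a + r.eval ((k * (n + 1) : ℕ) : ℤ)) (f - g - w)⟫_ℝ
          + ⟪ind μ hBm, rep hS a (rep hS (r.eval ((k * (n + 1) : ℕ) : ℤ)) w)⟫_ℝ := by
      intro n
      have h1 : rep hS (a + r.eval ((k * (n + 1) : ℕ) : ℤ)) g = g := by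
        refine hUS.fixed_dvd hgfix (dvd_add ?_ (hdvd n))
        rw [ha]
        push_cast
        exact dvd_mul_right _ _
      rw [← hUS.add]
      conv_lhs => rw [show f = g + (f - g - w) + w by abel]
      rw [map_add, map_add, inner_add_right, inner_add_right, h1]
    have hbound : ∀ n, -(ε / 3)
        ≤ ⟪ind μ hBm, rep hS (a + r.eval ((k * (n + 1) : ℕ) : ℤ)) (f - g - w)⟫_ℝ := by
      intro n
      have h1 := abs_real_inner_le_norm (ind μ hBm)
        (rep hS (a + r.eval ((k * (n + 1) : ℕ) : ℤ)) (f - g - w))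
      rw [LinearIsometry.norm_map] at h1
      have h2 : ‖ind μ hBm‖ * ‖f - g - w‖ ≤ 1 * (ε / 3) :=
        mul_le_mul (norm_ind_le hBm) hsmall.le (norm_nonneg _) zero_le_one
      have h3 := neg_abs_le ⟪ind μ hBm, rep hS (a + r.eval ((k * (n + 1) : ℕ) : ℤ))
        (f - g - w)⟫_ℝ
      linarith
    have hlast : -(ε / 3) ≤ (N : ℝ)⁻¹ * ∑ n ∈ range N,
        ⟪ind μ hBm, rep hS a (rep hS (r.eval ((k * (n + 1) : ℕ) : ℤ)) w)⟫_ℝ := by
      have e : (N : ℝ)⁻¹ * ∑ n ∈ range N,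
          ⟪ind μ hBm, rep hS a (rep hS (r.eval ((k * (n + 1) : ℕ) : ℤ)) w)⟫_ℝ
          = ⟪ind μ hBm, rep hS a ((N : ℝ)⁻¹ • ∑ n ∈ range N,
            rep hS (r.eval ((k * (n + 1) : ℕ) : ℤ)) w)⟫_ℝ := by
        rw [map_smul, map_sum, inner_smul_right, inner_sum]
      rw [e]
      have h1 := abs_real_inner_le_norm (ind μ hBm) (rep hS a ((N : ℝ)⁻¹ • ∑ n ∈ range N,
            rep hS (r.eval ((k * (n + 1) : ℕ) : ℤ)) w))
      rw [LinearIsometry.norm_map] at h1
      have h2 : ‖ind μ hBm‖ * ‖(N : ℝ)⁻¹ • ∑ n ∈ range N,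
            rep hS (r.eval ((k * (n + 1) : ℕ) : ℤ)) w‖ ≤ 1 * (ε / 3) :=
        mul_le_mul (norm_ind_le hBm) hNsmall.le (norm_nonneg _) zero_le_one
      have h3 := neg_abs_le ⟪ind μ hBm, rep hS a ((N : ℝ)⁻¹ • ∑ n ∈ range N,
            rep hS (r.eval ((k * (n + 1) : ℕ) : ℤ)) w)⟫_ℝ
      linarith
    have hN' : (0 : ℝ) < N := by exact_mod_cast hNpos
    simp_rw [hterm]
    rw [Finset.sum_add_distrib, Finset.sum_add_distrib, mul_add, mul_add]
    have h1 : (N : ℝ)⁻¹ * ∑ _n ∈ range N, ⟪ind μ hBm, g⟫_ℝ = ⟪ind μ hBm, g⟫_ℝ := by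
      rw [Finset.sum_const, card_range, nsmul_eq_mul]
      field_simp
    have h2 : -(ε / 3) ≤ (N : ℝ)⁻¹ * ∑ n ∈ range N,
        ⟪ind μ hBm, rep hS (a + r.eval ((k * (n + 1) : ℕ) : ℤ)) (f - g - w)⟫_ℝ := by
      calc -(ε / 3) = (N : ℝ)⁻¹ * ∑ _n ∈ range N, -(ε / 3) := by
            rw [Finset.sum_const, card_range, nsmul_eq_mul]
            field_simp
        _ ≤ _ := by
            refine mul_le_mul_of_nonneg_left ?_ (by positivity)
            exact Finset.sum_le_sum fun n _ => hbound n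
    rw [h1]
    linarith
  obtain ⟨n, hn, hval⟩ := exists_avg_ge hNpos _ havg
  have hpa : p.eval ((k * (n + 1) : ℕ) : ℤ) < a := by
    refine (ha₀ n hn).trans_le ?_
    have : a₀ ≤ a := by
      rw [ha]
      calc a₀ ≤ a₀ + i := Nat.le_add_right _ _
        _ ≤ k * (a₀ + i) := Nat.le_mul_of_pos_left _ hk
    exact_mod_cast this
  refine ⟨(a - p.eval ((k * (n + 1) : ℕ) : ℤ)).toNat, k * (n + 1), ?_, by positivity, ?_⟩
  · rw [Int.lt_toNat]
    push_cast at hpa ⊢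
    linarith
  · have e1 : (((a - p.eval ((k * (n + 1) : ℕ) : ℤ)).toNat : ℕ) : ℤ)
        = a - p.eval ((k * (n + 1) : ℕ) : ℤ) := Int.toNat_of_nonneg (by linarith)
    rw [e1]
    have e2 : (a : ℤ) - p.eval ((k * (n + 1) : ℕ) : ℤ) + p.eval ((k * (n + 1) : ℕ) : ℤ) = a := by
      ring
    have e3 : (a : ℤ) - p.eval ((k * (n + 1) : ℕ) : ℤ) + q.eval ((k * (n + 1) : ℕ) : ℤ)
        = a + r.eval ((k * (n + 1) : ℕ) : ℤ) := by
      rw [hr, eval_sub]
      ring
    rw [e2, e3]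
    rw [rep_ind hS, inner_ind] at hval
    exact hval

end Pool.Agent.Lib.ShiftRec

end
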