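import Pool.Agent.Lib.MP_9d6b4a_an.Mg.G001

set_option autoImplicit false

namespace Pool.Agent.PolyRec

open MeasureTheory

/-! ### counting -/

theorem t06_cnt_zero {ι : Type} [Fintype ι] (p : ι → Prop) (h : ∀ j, ¬ p j) : cnt p = 0 := by
  classical
  unfold cnt
  rw [Nat.cast_eq_zero, Finset.card_eq_zero, Finset.eq_empty_iff_forall_notMem]
  intro j hj
  exact h j (Finset.mem_filter.1 hj).2

theorem t06_cnt_le {ι κ : Type} [Fintype ι] [Fintype κ] {p : ι → Prop} {q : κ → Prop}
    (g : ι → κ) (hg : ∀ x x', p x → p x' → g x = g x' → x = x') (h : ∀ x, p x → q (g x)) :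
    cnt p ≤ cnt q := by
  classical
  unfold cnt
  have h1 : (Finset.univ.filter p).card ≤ (Finset.univ.filter q).card := by
    apply Finset.card_le_card_of_injOn g
    · intro x hx
      simp only [Finset.coe_filter, Finset.mem_univ, true_and, Set.mem_ofPred_eq] at hx ⊢
      exact h x hx
    · intro x hx x' hx' he
      simp only [Finset.coe_filter, Finset.mem_univ, true_and, Set.mem_ofPred_eq] at hx hx'
      exact hg x x' hx hx' he
  exact_mod_cast h1

theorem t06_cnt_or {ι : Type} [Fintype ι] {p q r : ι → Prop} (h : ∀ x, p x → q x ∨ r x) :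
    cnt p ≤ cnt q + cnt r := by
  classical
  unfold cnt
  have h1 : (Finset.univ.filter p).card ≤
      (Finset.univ.filter q).card + (Finset.univ.filter r).card := by
    refine le_trans (Finset.card_le_card ?_) (Finset.card_union_le _ _)
    intro x hx
    simp only [Finset.mem_filter, Finset.mem_univ, true_and, Finset.mem_union] at hx ⊢
    exact h x hx
  exact_mod_cast h1

/-! ### the triangular automorphism -/

theorem t06_combo_add {K N : ℕ} (π : Fin K → Equiv.Perm (Fin N)) (t t' : Fin N → Tor)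
    (z : Fin N ⊕ Fin N) : combo π (t + t') z = combo π t z + combo π t' z := by
  rcases z with a | b
  · rfl
  · show ∑ i, (t + t') ((π i).symm b) = ∑ i, t ((π i).symm b) + ∑ i, t' ((π i).symm b)
    rw [← Finset.sum_add_distrib]
    rfl

theorem t06_combo_cont {K N : ℕ} (π : Fin K → Equiv.Perm (Fin N)) (z : Fin N ⊕ Fin N) :
    Continuous (fun t : Fin N → Tor => combo π t z) := by
  rcases z with a | b
  · exact continuous_apply a
  · show Continuous (fun t : Fin N → Tor => ∑ i, t ((π i).symm b))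
    exact continuous_finsetSum _ (fun i _ => continuous_apply _)

/-- the forms -/
noncomputable def t06_form {K N L : ℕ} (π : Fin K → Equiv.Perm (Fin N)) (t : Fin N → Tor)
    (z : (Fin N ⊕ Fin N) × Fin (L + 1)) : Tor := ((2 : ℤ) ^ (z.2 : ℕ)) • combo π t z.1

theorem t06_form_add {K N L : ℕ} (π : Fin K → Equiv.Perm (Fin N)) (t t' : Fin N → Tor)
    (z : (Fin N ⊕ Fin N) × Fin (L + 1)) :
    t06_form π (t + t') z = t06_form π t z + t06_form π t' z := by
  unfold t06_form
  rw [t06_combo_add, smul_add]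

theorem t06_form_cont {K N L : ℕ} (π : Fin K → Equiv.Perm (Fin N))
    (z : (Fin N ⊕ Fin N) × Fin (L + 1)) :
    Continuous (fun t : Fin N → Tor => t06_form π t z) := by
  unfold t06_form
  exact (t06_combo_cont π z.1).zsmul _

open Classical in
/-- the forms placed at the inputs `f z` -/
noncomputable def t06_Lam {K N L : ℕ} {W : Type} (π : Fin K → Equiv.Perm (Fin N))
    (f : (Fin N ⊕ Fin N) × Fin (L + 1) → W) (t : Fin N → Tor) (w : W) : Tor :=
  ∑ z, if f z = w then t06_form π t z else 0

theorem t06_Lam_apply {K N L : ℕ} {W : Type} (π : Fin K → Equiv.Perm (Fin N))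
    (f : (Fin N ⊕ Fin N) × Fin (L + 1) → W) (hf : Function.Injective f) (t : Fin N → Tor)
    (z : (Fin N ⊕ Fin N) × Fin (L + 1)) : t06_Lam π f t (f z) = t06_form π t z := by
  classical
  unfold t06_Lam
  rw [Finset.sum_eq_single z]
  · rw [if_pos rfl]
  · intro z' _ hz'
    rw [if_neg (fun h => hz' (hf h))]
  · intro h
    exact absurd (Finset.mem_univ z) h

theorem t06_Lam_zero {K N L : ℕ} {W : Type} (π : Fin K → Equiv.Perm (Fin N))
    (f : (Fin N ⊕ Fin N) × Fin (L + 1) → W) (t : Fin N → Tor) (w : W)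
    (h : ∀ z, f z ≠ w) : t06_Lam π f t w = 0 := by
  classical
  unfold t06_Lam
  apply Finset.sum_eq_zero
  intro z _
  rw [if_neg (h z)]

theorem t06_Lam_add {K N L : ℕ} {W : Type} (π : Fin K → Equiv.Perm (Fin N))
    (f : (Fin N ⊕ Fin N) × Fin (L + 1) → W) (t t' : Fin N → Tor) (w : W) :
    t06_Lam π f (t + t') w = t06_Lam π f t w + t06_Lam π f t' w := by
  classical
  unfold t06_Lam
  rw [← Finset.sum_add_distrib]
  apply Finset.sum_congr rfl
  intro z _
  split_ifs
  · exact t06_form_add π t t' z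
  · rw [add_zero]

theorem t06_Lam_cont {K N L : ℕ} {W : Type} (π : Fin K → Equiv.Perm (Fin N))
    (f : (Fin N ⊕ Fin N) × Fin (L + 1) → W) (w : W) :
    Continuous (fun t : Fin N → Tor => t06_Lam π f t w) := by
  classical
  unfold t06_Lam
  apply continuous_finsetSum
  intro z _
  split_ifs
  · exact t06_form_cont π z
  · exact continuous_const

/-- the triangular automorphism -/
noncomputable def t06_tri {K N L : ℕ} {W : Type} (π : Fin K → Equiv.Perm (Fin N))
    (f : (Fin N ⊕ Fin N) × Fin (L + 1) → W) : (W ⊕ Fin N → Tor) ≃+ (W ⊕ Fin N → Tor) where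
  toFun v := Sum.elim (fun w => v (Sum.inl w) + t06_Lam π f (fun a => v (Sum.inr a)) w)
    (fun a => v (Sum.inr a))
  invFun v := Sum.elim (fun w => v (Sum.inl w) - t06_Lam π f (fun a => v (Sum.inr a)) w)
    (fun a => v (Sum.inr a))
  left_inv v := by
    funext j
    rcases j with w | a
    · show v (Sum.inl w) + t06_Lam π f (fun a => v (Sum.inr a)) w -
        t06_Lam π f (fun a => v (Sum.inr a)) w = v (Sum.inl w)
      rw [add_sub_cancel_right]
    · rfl
  right_inv v := by
    funext j
    rcases j with w | a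
    · show v (Sum.inl w) - t06_Lam π f (fun a => v (Sum.inr a)) w +
        t06_Lam π f (fun a => v (Sum.inr a)) w = v (Sum.inl w)
      rw [sub_add_cancel]
    · rfl
  map_add' v v' := by
    funext j
    rcases j with w | a
    · show (v + v') (Sum.inl w) + t06_Lam π f (fun a => (v + v') (Sum.inr a)) w =
        (v (Sum.inl w) + t06_Lam π f (fun a => v (Sum.inr a)) w) +
        (v' (Sum.inl w) + t06_Lam π f (fun a => v' (Sum.inr a)) w)
      have h : t06_Lam π f (fun a => (v + v') (Sum.inr a)) w =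
          t06_Lam π f (fun a => v (Sum.inr a)) w + t06_Lam π f (fun a => v' (Sum.inr a)) w :=
        t06_Lam_add π f (fun a => v (Sum.inr a)) (fun a => v' (Sum.inr a)) w
      rw [h, Pi.add_apply]
      abel
    · rfl

theorem t06_tri_cont {K N L : ℕ} {W : Type} (π : Fin K → Equiv.Perm (Fin N))
    (f : (Fin N ⊕ Fin N) × Fin (L + 1) → W) : Continuous (t06_tri π f) := by
  apply continuous_pi
  intro j
  rcases j with w | a
  · show Continuous (fun v : W ⊕ Fin N → Tor =>
      v (Sum.inl w) + t06_Lam π f (fun a => v (Sum.inr a)) w)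
    apply (continuous_apply _).add
    exact (t06_Lam_cont π f w).comp (continuous_pi (fun a => continuous_apply (Sum.inr a)))
  · exact continuous_apply (Sum.inr a)

theorem t06_tri_symm_cont {K N L : ℕ} {W : Type} (π : Fin K → Equiv.Perm (Fin N))
    (f : (Fin N ⊕ Fin N) × Fin (L + 1) → W) : Continuous (t06_tri π f).symm := by
  apply continuous_pi
  intro j
  rcases j with w | a
  · show Continuous (fun v : W ⊕ Fin N → Tor =>
      v (Sum.inl w) - t06_Lam π f (fun a => v (Sum.inr a)) w)
    apply (continuous_apply _).sub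
    exact (t06_Lam_cont π f w).comp (continuous_pi (fun a => continuous_apply (Sum.inr a)))
  · exact continuous_apply (Sum.inr a)

/-- renaming of the coordinates -/
def t06_re {ι : Type} (σ : Equiv.Perm ι) : (ι → Tor) ≃+ (ι → Tor) where
  toFun v := fun j => v (σ j)
  invFun v := fun j => v (σ.symm j)
  left_inv v := by funext j; simp
  right_inv v := by funext j; simp
  map_add' v v' := rfl

theorem t06_re_cont {ι : Type} (σ : Equiv.Perm ι) : Continuous (t06_re σ) :=
  continuous_pi (fun j => continuous_apply (σ j))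

theorem t06_re_symm_cont {ι : Type} (σ : Equiv.Perm ι) : Continuous (t06_re σ).symm :=
  continuous_pi (fun j => continuous_apply (σ.symm j))

/-! ### placing the special indices -/

theorem t06_place {ι : Type} [Fintype ι] (Sp : Finset ι) (Q : Set ι)
    (h : (Sp.card : ℝ) ≤ cnt (fun j => j ∈ Q)) :
    ∃ σ : Equiv.Perm ι, ∀ s ∈ Sp, σ.symm s ∈ Q := by
  classical
  unfold cnt at h
  have h1 : Sp.card ≤ (Finset.univ.filter (fun j => j ∈ Q)).card := by exact_mod_cast h
  obtain ⟨J0, hJ0, hc⟩ := Finset.exists_subset_card_eq h1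
  have e : {x // x ∈ J0} ≃ {x // x ∈ Sp} := by
    apply Fintype.equivOfCardEq
    rw [Fintype.card_coe, Fintype.card_coe, hc]
  refine ⟨e.extendSubtype, ?_⟩
  intro s hs
  obtain ⟨x, hx⟩ := e.surjective ⟨s, hs⟩
  have h2 : e.extendSubtype x.1 = s := by
    rw [Equiv.extendSubtype_apply_of_mem e x.1 x.2]
    have : e ⟨x.1, x.2⟩ = ⟨s, hs⟩ := hx
    rw [this]
  rw [← h2, Equiv.symm_apply_apply]
  exact (Finset.mem_filter.1 (hJ0 x.2)).2

/-- T06: the level theorem. -/
theorem exists_level (P : Par) (o' : ℕ) :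
    ∃ E : Set (Ix P.S o' (2 * o')) → ((Ix P.S o' (2 * o') → Tor) ≃+ (Ix P.S o' (2 * o') → Tor)),
      (∀ Q, Continuous (E Q)) ∧ (∀ Q, Continuous (E Q).symm) ∧
      ∀ y v : Ix P.S o' (2 * o') → Tor, InV P.lam P.A' y → InV P.lam P.A' (y + E (Jset y) v) →
        cnt (fun z : Fin P.S × Fin o' => P.A' < ‖v (Sum.inl z)‖) ≤ 2 * P.e * (P.S * o') →
        cnt (fun a : Fin (2 * o') => P.A < ‖v (Sum.inr a)‖) ≤ P.e * (2 * o' : ℕ) := by
  classical
  obtain ⟨N, hN⟩ : ∃ N : ℕ, N = 2 * o' := ⟨_, rfl⟩
  rw [← hN]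
  obtain ⟨π, hπ⟩ := exists_expander P.D P.hD P.α P.hα0 P.hα N
  -- the injection of the forms
  obtain ⟨f, hf⟩ : ∃ f : (Fin N ⊕ Fin N) × Fin (P.L + 1) → Fin P.S × Fin o',
      Function.Injective f := by
    have h1 : Fintype.card ((Fin N ⊕ Fin N) × Fin (P.L + 1)) ≤ Fintype.card (Fin P.S × Fin o') := by
      rw [Fintype.card_prod, Fintype.card_sum, Fintype.card_prod, Fintype.card_fin,
        Fintype.card_fin, Fintype.card_fin, Fintype.card_fin, hN]
      calc (2 * o' + 2 * o') * (P.L + 1) = (2 * (2 * P.L + 2)) * o' := by ring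
        _ ≤ P.S * o' := Nat.mul_le_mul_right _ P.hforms
    obtain ⟨g⟩ := Function.Embedding.nonempty_of_card_le h1
    exact ⟨g, g.injective⟩
  -- the special indices
  obtain ⟨Sp, hSp⟩ : ∃ Sp : Finset (Ix P.S o' N), Sp =
      (Finset.univ.image (fun z => (Sum.inl (f z) : Ix P.S o' N))) ∪
      (Finset.univ.image (fun a => (Sum.inr a : Ix P.S o' N))) := ⟨_, rfl⟩
  have hSpc : (Sp.card : ℝ) ≤ (2 * (2 * (P.L : ℝ) + 3)) * o' := by
    have h1 : Sp.card ≤ (2 * (2 * P.L + 3)) * o' := by
      rw [hSp]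
      refine (Finset.card_union_le _ _).trans ?_
      refine (add_le_add Finset.card_image_le Finset.card_image_le).trans (le_of_eq ?_)
      rw [Finset.card_univ, Finset.card_univ, Fintype.card_prod, Fintype.card_sum,
        Fintype.card_fin, Fintype.card_fin, hN]
      ring
    exact_mod_cast h1
  have hplace : ∀ Q : Set (Ix P.S o' N), ∃ σ : Equiv.Perm (Ix P.S o' N),
      (Sp.card : ℝ) ≤ cnt (fun j => j ∈ Q) → ∀ s ∈ Sp, σ.symm s ∈ Q := by
    intro Q
    by_cases h : (Sp.card : ℝ) ≤ cnt (fun j => j ∈ Q)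
    · obtain ⟨σ, hσ⟩ := t06_place Sp Q h
      exact ⟨σ, fun _ => hσ⟩
    · exact ⟨1, fun h' => absurd h' h⟩
  choose σ hσ using hplace
  refine ⟨fun Q => (t06_tri π f).trans (t06_re (σ Q)), ?_, ?_, ?_⟩
  · intro Q
    exact (t06_re_cont (σ Q)).comp (t06_tri_cont π f)
  · intro Q
    exact (t06_tri_symm_cont π f).comp (t06_re_symm_cont (σ Q))
  · intro y v hy hyh hu
    set h : Ix P.S o' N → Tor := ((t06_tri π f).trans (t06_re (σ (Jset y)))) v with hh
    obtain ⟨t, ht⟩ : ∃ t : Fin N → Tor, t = fun a => v (Sum.inr a) := ⟨_, rfl⟩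
    have hcardι : (Fintype.card (Ix P.S o' N) : ℝ) = ((P.S : ℝ) + 2) * o' := by
      rw [Fintype.card_sum, Fintype.card_prod, Fintype.card_fin, Fintype.card_fin,
        Fintype.card_fin, hN]
      push_cast
      ring
    have ho0 : (0 : ℝ) ≤ o' := Nat.cast_nonneg _
    -- enough room in `J(y)`
    have hroom : (Sp.card : ℝ) ≤ cnt (fun j => j ∈ Jset y) := by
      have h1 := (abs_le.1 hy.1).1
      have h2 : cnt (fun j => j ∈ Jset y) = cnt (fun j => ‖y j‖ ≤ 1 / 16) := rfl
      rw [h2]
      rw [hcardι] at h1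
      have h3 := mul_le_mul_of_nonneg_right P.hroom ho0
      have h4 : (1 / 8 - P.lam) * ((P.S : ℝ) + 2) * o' =
          2 * (1 / 16) * (((P.S : ℝ) + 2) * o') - P.lam * (((P.S : ℝ) + 2) * o') := by ring
      rw [h4] at h3
      linarith
    have hσ' := hσ (Jset y) hroom
    obtain ⟨τ, hτ⟩ : ∃ τ : Equiv.Perm (Ix P.S o' N), τ = σ (Jset y) := ⟨_, rfl⟩
    rw [← hτ] at hσ' hh
    have hhj : ∀ j, h j = t06_tri π f v (τ j) := fun j => by rw [hh]; rfl
    have htri_inl : ∀ w, t06_tri π f v (Sum.inl w) = v (Sum.inl w) + t06_Lam π f t w := by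
      intro w
      rw [ht]
      rfl
    -- entered coordinates
    have hin : cnt (fun j => 1 / 16 < ‖y j‖ ∧ P.A' < ‖h j‖) ≤ 2 * P.e * (P.S * o') := by
      have hout : ∀ j, 1 / 16 < ‖y j‖ → ∃ w, τ j = Sum.inl w ∧ h j = v (Sum.inl w) := by
        intro j hj
        have hns : τ j ∉ Sp := by
          intro hs
          have h1 := hσ' _ hs
          rw [Equiv.symm_apply_apply] at h1
          exact absurd h1 (not_le.2 hj)
        rcases hτj : τ j with w | a
        · refine ⟨w, rfl, ?_⟩
          rw [hhj, hτj, htri_inl, t06_Lam_zero π f t w, add_zero]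
          intro z hz
          apply hns
          rw [hτj, hSp, Finset.mem_union]
          left
          rw [Finset.mem_image]
          exact ⟨z, Finset.mem_univ _, by rw [hz]⟩
        · exfalso
          apply hns
          rw [hτj, hSp, Finset.mem_union]
          right
          rw [Finset.mem_image]
          exact ⟨a, Finset.mem_univ _, rfl⟩
      refine le_trans ?_ hu
      by_cases hW : Nonempty (Fin P.S × Fin o')
      · obtain ⟨w0⟩ := hW
        apply t06_cnt_le (fun j => if hj : ∃ w, τ j = Sum.inl w ∧ h j = v (Sum.inl w) then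
          hj.choose else w0)
        · intro j j' hj hj' he
          have e1 := hout j hj.1
          have e2 := hout j' hj'.1
          simp only [dif_pos e1, dif_pos e2] at he
          have e3 := e1.choose_spec.1
          have e4 := e2.choose_spec.1
          rw [he, ← e4] at e3
          exact τ.injective e3
        · intro j hj
          have e1 := hout j hj.1
          simp only [dif_pos e1]
          rw [← e1.choose_spec.2]
          exact hj.2
      · have h1 : ∀ j, ¬ (1 / 16 < ‖y j‖ ∧ P.A' < ‖h j‖) := by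
          intro j hj
          obtain ⟨w, _⟩ := hout j hj.1
          exact hW ⟨w⟩
        have h2 : cnt (fun j => 1 / 16 < ‖y j‖ ∧ P.A' < ‖h j‖) = 0 := t06_cnt_zero _ h1
        rw [h2]
        unfold cnt
        exact Nat.cast_nonneg _
    have hA'0 : 0 ≤ P.A' := by
      have h1 := P.hA'
      have h2 : 0 ≤ (4 * (P.S : ℝ) + 2) * P.A := by
        have := P.hA0
        positivity
      linarith
    have hleft := step_count P.lam P.A' hA'0 y h hy hyh _ hin
    -- bad forms
    have hbad : cnt (fun z : (Fin N ⊕ Fin N) × Fin (P.L + 1) =>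
        3 / 16 ≤ ‖((2 : ℤ) ^ (z.2 : ℕ)) • combo π t z.1‖) ≤ P.α * N := by
      have h1 : cnt (fun z : (Fin N ⊕ Fin N) × Fin (P.L + 1) =>
          3 / 16 ≤ ‖((2 : ℤ) ^ (z.2 : ℕ)) • combo π t z.1‖) ≤
          cnt (fun z : (Fin N ⊕ Fin N) × Fin (P.L + 1) =>
            ‖y (τ.symm (Sum.inl (f z)))‖ ≤ 1 / 16 ∧
              1 / 16 < ‖y (τ.symm (Sum.inl (f z))) + h (τ.symm (Sum.inl (f z)))‖) +
          cnt (fun z : (Fin N ⊕ Fin N) × Fin (P.L + 1) => P.A' < ‖v (Sum.inl (f z))‖) := by
        apply t06_cnt_or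
        intro z hz
        have hmem : (Sum.inl (f z) : Ix P.S o' N) ∈ Sp := by
          rw [hSp, Finset.mem_union]
          left
          rw [Finset.mem_image]
          exact ⟨z, Finset.mem_univ _, rfl⟩
        have hyj : ‖y (τ.symm (Sum.inl (f z)))‖ ≤ 1 / 16 := hσ' _ hmem
        by_cases hl : 1 / 16 < ‖y (τ.symm (Sum.inl (f z))) + h (τ.symm (Sum.inl (f z)))‖
        · exact Or.inl ⟨hyj, hl⟩
        · right
          rw [not_lt] at hl
          have h2 : h (τ.symm (Sum.inl (f z))) = v (Sum.inl (f z)) +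
              ((2 : ℤ) ^ (z.2 : ℕ)) • combo π t z.1 := by
            rw [hhj, Equiv.apply_symm_apply, htri_inl, t06_Lam_apply π f hf]
            rfl
          have h3 : ‖h (τ.symm (Sum.inl (f z)))‖ ≤ 1 / 8 := by
            have h4 := norm_sub_le (y (τ.symm (Sum.inl (f z))) + h (τ.symm (Sum.inl (f z))))
              (y (τ.symm (Sum.inl (f z))))
            rw [add_sub_cancel_left] at h4
            linarith
          have h5 : ‖((2 : ℤ) ^ (z.2 : ℕ)) • combo π t z.1‖ ≤
              ‖h (τ.symm (Sum.inl (f z)))‖ + ‖v (Sum.inl (f z))‖ := by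
            have h6 := norm_sub_le (h (τ.symm (Sum.inl (f z)))) (v (Sum.inl (f z)))
            rw [h2, add_sub_cancel_left] at h6
            rw [h2]
            exact h6
          have h7 := P.hA'16
          linarith
      have h2 : cnt (fun z : (Fin N ⊕ Fin N) × Fin (P.L + 1) =>
            ‖y (τ.symm (Sum.inl (f z)))‖ ≤ 1 / 16 ∧
              1 / 16 < ‖y (τ.symm (Sum.inl (f z))) + h (τ.symm (Sum.inl (f z)))‖) ≤
          cnt (fun j => ‖y j‖ ≤ 1 / 16 ∧ 1 / 16 < ‖y j + h j‖) := by
        apply t06_cnt_le (fun z => τ.symm (Sum.inl (f z)))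
        · intro z z' _ _ he
          exact hf (Sum.inl_injective (τ.symm.injective he))
        · intro z hz
          exact hz
      have h3 : cnt (fun z : (Fin N ⊕ Fin N) × Fin (P.L + 1) => P.A' < ‖v (Sum.inl (f z))‖) ≤
          cnt (fun z : Fin P.S × Fin o' => P.A' < ‖v (Sum.inl z)‖) := by
        apply t06_cnt_le f
        · intro z z' _ _ he
          exact hf he
        · intro z hz
          exact hz
      have hS0 : (0 : ℝ) ≤ P.S := Nat.cast_nonneg _
      have h4 : (2 * P.A' + 4 * P.lam) * (((P.S : ℝ) + 2) * o') ≤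
          P.e * (((P.S : ℝ) + 2) * o') :=
        mul_le_mul_of_nonneg_right P.hsmall (by positivity)
      have h5 := mul_le_mul_of_nonneg_right P.hbad ho0
      rw [hcardι] at hleft
      have h6 : P.α * (N : ℝ) = 2 * P.α * o' := by
        rw [hN]
        push_cast
        ring
      rw [h6]
      have h7 : 0 ≤ P.e * (o' : ℝ) := mul_nonneg P.he0.le ho0
      have h8 : 5 * P.e * ((P.S : ℝ) + 2) * o' =
          5 * (P.e * (P.S * o')) + 10 * (P.e * o') := by ring
      have h9 : P.e * (((P.S : ℝ) + 2) * o') = P.e * (P.S * o') + 2 * (P.e * o') := by ring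
      have h10 : 2 * P.e * (P.S * o') = 2 * (P.e * (P.S * o')) := by ring
      rw [h8] at h5
      rw [h9] at h4
      rw [h10] at hleft hu
      linarith
    have hfin := gadget P.D N P.J P.L (by have := P.hD; omega) π P.α P.A P.e P.hα0 hπ P.hA0
      P.htier P.hfin t hbad
    rw [ht] at hfin
    exact hfin

end Pool.Agent.PolyRec
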